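import Mathlib

/-!
# Regular continued fractions `[0; a 0, a 1, ...]`: convergents and good approximations
-/

set_option autoImplicit false

open Filter Topology

namespace Pool.Agent.W_d96d20_h7

/-- The finite continued fraction `[0; a 0, a 1, ..., a (n - 1)]`. -/
noncomputable def fcf : (ℕ → ℕ) → ℕ → ℝ
  | _, 0 => 0
  | a, n + 1 => 1 / (a 0 + fcf (fun i => a (i + 1)) n)

/-- The value of the continued fraction `[0; a 0, a 1, ...]`: the limit of its convergents. -/
noncomputable def cf (a : ℕ → ℕ) : ℝ := limUnder atTop (fcf a)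

theorem fcf_bd (n : ℕ) : ∀ a : ℕ → ℕ, (∀ i, 1 ≤ a i) → 0 ≤ fcf a n ∧ fcf a n ≤ 1 := by
  induction n with
  | zero => intro a _; simp [fcf]
  | succ n ih =>
    intro a ha
    have h := ih (fun i => a (i + 1)) fun i => ha _
    have h1 : (1 : ℝ) ≤ a 0 := by exact_mod_cast ha 0
    refine ⟨by rw [fcf]; exact div_nonneg zero_le_one (by linarith [h.1]), ?_⟩
    rw [fcf, div_le_one (by linarith [h.1])]
    linarith [h.1]

/-- The complete quotients. -/
structure Tl (a : ℕ → ℕ) (t : ℕ → ℝ) : Prop where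
  pos : ∀ n, 0 < t n
  lt : ∀ n, t n < 1
  step : ∀ n, t n * (a n + t (n + 1)) = 1

theorem two_step {a0 a1 u' x'' : ℝ} (h0 : 1 ≤ a0) (h1 : 1 ≤ a1) (hu : 0 ≤ u') (hx : 0 ≤ x'') :
    |1 / (a0 + 1 / (a1 + u')) - 1 / (a0 + 1 / (a1 + x''))| ≤ 1 / 4 * |u' - x''| := by
  have e : 1 / (a0 + 1 / (a1 + u')) - 1 / (a0 + 1 / (a1 + x'')) =
      (u' - x'') / ((a0 * (a1 + u') + 1) * (a0 * (a1 + x'') + 1)) := by
    have h2 : a1 + u' ≠ 0 := by positivity
    have h3 : a1 + x'' ≠ 0 := by positivity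
    have h4 : a0 * (a1 + u') + 1 ≠ 0 := by positivity
    have h5 : a0 * (a1 + x'') + 1 ≠ 0 := by positivity
    have h6 : a0 + 1 / (a1 + u') = (a0 * (a1 + u') + 1) / (a1 + u') := by field_simp
    have h7 : a0 + 1 / (a1 + x'') = (a0 * (a1 + x'') + 1) / (a1 + x'') := by field_simp
    rw [h6, h7, one_div_div, one_div_div, div_sub_div _ _ h4 h5]
    congr 1
    ring
  have h8 : 2 ≤ a0 * (a1 + u') + 1 := by nlinarith
  have h9 : 2 ≤ a0 * (a1 + x'') + 1 := by nlinarith
  rw [e, abs_div, abs_of_pos (by positivity : 0 < (a0 * (a1 + u') + 1) * (a0 * (a1 + x'') + 1)),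
    div_le_iff₀ (by positivity)]
  have h10 : 4 ≤ (a0 * (a1 + u') + 1) * (a0 * (a1 + x'') + 1) := by nlinarith
  nlinarith [abs_nonneg (u' - x'')]

theorem fcf_cauchy (n : ℕ) : ∀ a : ℕ → ℕ, (∀ i, 1 ≤ a i) →
    |fcf a n - fcf a (n + 1)| ≤ 2 * (1 / 2) ^ n := by
  induction n using Nat.strong_induction_on with
  | _ n ih =>
    intro a ha
    rcases n with _ | _ | n
    · have h := fcf_bd 1 a ha
      have : fcf a 0 = 0 := rfl
      rw [this, zero_sub, abs_neg, abs_of_nonneg h.1]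
      norm_num
      linarith [h.2]
    · have h := fcf_bd 1 a ha
      have h' := fcf_bd 2 a ha
      rw [abs_le]
      constructor <;> norm_num <;> linarith [h.1, h.2, h'.1, h'.2]
    · have h := ih n (by omega) (fun i => a (i + 2)) fun i => ha _
      have h0 : (1 : ℝ) ≤ a 0 := by exact_mod_cast ha 0
      have h1 : (1 : ℝ) ≤ a 1 := by exact_mod_cast ha 1
      have := two_step h0 h1 (fcf_bd n (fun i => a (i + 2)) fun i => ha _).1
        (fcf_bd (n + 1) (fun i => a (i + 2)) fun i => ha _).1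
      calc |fcf a (n + 1 + 1) - fcf a (n + 1 + 1 + 1)| ≤ 1 / 4 *
            |fcf (fun i => a (i + 2)) n - fcf (fun i => a (i + 2)) (n + 1)| := this
        _ ≤ 1 / 4 * (2 * (1 / 2) ^ n) := by linarith
        _ = 2 * (1 / 2) ^ (n + 1 + 1) := by ring

theorem tendsto_cf (a : ℕ → ℕ) (ha : ∀ i, 1 ≤ a i) : Tendsto (fcf a) atTop (𝓝 (cf a)) := by
  have h : CauchySeq (fcf a) := by
    refine cauchySeq_of_le_geometric (1 / 2) 2 (by norm_num) fun n => ?_
    rw [Real.dist_eq]
    exact fcf_cauchy n a ha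
  exact h.tendsto_limUnder

theorem fcf_tl (n : ℕ) : ∀ (a : ℕ → ℕ) (t : ℕ → ℝ), (∀ i, 1 ≤ a i) → Tl a t →
    |fcf a n - t 0| ≤ 2 * (1 / 2) ^ n := by
  induction n using Nat.strong_induction_on with
  | _ n ih =>
    intro a t ha ht
    rcases n with _ | _ | n
    · have : fcf a 0 = 0 := rfl
      rw [this, zero_sub, abs_neg, abs_of_pos (ht.pos 0)]
      norm_num
      linarith [ht.lt 0]
    · have h := fcf_bd 1 a ha
      rw [abs_le]
      constructor <;> norm_num <;> linarith [h.1, h.2, ht.pos 0, ht.lt 0]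
    · have h := ih n (by omega) (fun i => a (i + 2)) (fun i => t (i + 2)) (fun i => ha _)
        ⟨fun i => ht.pos _, fun i => ht.lt _, fun i => ht.step _⟩
      have h0 : (1 : ℝ) ≤ a 0 := by exact_mod_cast ha 0
      have h1 : (1 : ℝ) ≤ a 1 := by exact_mod_cast ha 1
      have := two_step h0 h1 (fcf_bd n (fun i => a (i + 2)) fun i => ha _).1 (ht.pos 2).le
      have e1 : t 1 = 1 / (a 1 + t 2) := by
        rw [eq_div_iff (by linarith [ht.pos 2])]; exact ht.step 1
      have e0 : t 0 = 1 / (a 0 + 1 / (a 1 + t 2)) := by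
        rw [← e1, eq_div_iff (by linarith [ht.pos 1])]; exact ht.step 0
      calc |fcf a (n + 1 + 1) - t 0| ≤ 1 / 4 *
            |fcf (fun i => a (i + 2)) n - t 2| := by rw [e0]; exact this
        _ ≤ 1 / 4 * (2 * (1 / 2) ^ n) := by linarith [h]
        _ = 2 * (1 / 2) ^ (n + 1 + 1) := by ring

/-- A sequence of complete quotients determines the value. -/
theorem cf_eq_of_tl {a : ℕ → ℕ} {t : ℕ → ℝ} (ha : ∀ i, 1 ≤ a i) (ht : Tl a t) :
    cf a = t 0 := by
  refine tendsto_nhds_unique (tendsto_cf a ha) ?_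
  rw [tendsto_iff_dist_tendsto_zero]
  refine squeeze_zero (fun _ => dist_nonneg) (fun n => ?_)
    (by simpa using (tendsto_pow_atTop_nhds_zero_of_lt_one (r := (1 / 2 : ℝ)) (by norm_num)
      (by norm_num)).const_mul 2 : Tendsto (fun n : ℕ => 2 * (1 / 2 : ℝ) ^ n) atTop (𝓝 0))
  rw [Real.dist_eq]
  exact fcf_tl n a t ha ht

theorem cf_rec (a : ℕ → ℕ) (ha : ∀ i, 1 ≤ a i) :
    0 < cf a ∧ cf a * (a 0 + cf (fun i => a (i + 1))) = 1 := by
  have h0 : (1 : ℝ) ≤ a 0 := by exact_mod_cast ha 0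
  have h1 := (tendsto_cf a ha).comp (tendsto_add_atTop_nat 1)
  have h2 := tendsto_cf (fun i => a (i + 1)) fun i => ha _
  have h3 : 0 ≤ cf (fun i => a (i + 1)) :=
    ge_of_tendsto' h2 fun n => (fcf_bd n _ fun i => ha _).1
  have h4 : Tendsto (fun n => fcf a (n + 1)) atTop (𝓝 (1 / (a 0 + cf (fun i => a (i + 1))))) := by
    simp only [fcf]
    exact tendsto_const_nhds.div (tendsto_const_nhds.add h2) (by linarith)
  have h5 : cf a = 1 / (a 0 + cf (fun i => a (i + 1))) := tendsto_nhds_unique h1 h4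
  have h6 : 0 < (a 0 : ℝ) + cf (fun i => a (i + 1)) := by linarith
  rw [h5]
  exact ⟨by positivity, by field_simp⟩

theorem exists_tl (a : ℕ → ℕ) (ha : ∀ i, 1 ≤ a i) : ∃ t : ℕ → ℝ, Tl a t ∧ t 0 = cf a := by
  have hr : ∀ n, 0 < cf (fun i => a (i + n)) ∧
      cf (fun i => a (i + n)) * (a n + cf (fun i => a (i + (n + 1)))) = 1 := by
    intro n
    have h := cf_rec (fun i => a (i + n)) fun i => ha _
    simpa [add_assoc, add_comm 1 n] using h
  refine ⟨fun n => cf (fun i => a (i + n)), ⟨fun n => (hr n).1, fun n => ?_, fun n => (hr n).2⟩, ?_⟩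
  · have h1 := (hr n).2
    have h2 := (hr (n + 1)).1
    have h0 : (1 : ℝ) ≤ a n := by exact_mod_cast ha n
    by_contra h
    push Not at h
    nlinarith
  · simp

end Pool.Agent.W_d96d20_h7
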