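import Pool.Agent.W_d96d20_h7.Basic

/-!
# Continuants and Legendre's lemma
-/

set_option autoImplicit false

open Filter Topology

namespace Pool.Agent.W_d96d20_h7

/-- Numerators: `p 0 = 0`, `p 1 = 1`. -/
def pn (a : ℕ → ℕ) : ℕ → ℤ
  | 0 => 0
  | 1 => 1
  | n + 2 => a (n + 1) * pn a (n + 1) + pn a n

/-- Denominators: `q 0 = 1`, `q 1 = a 0`. -/
def qn (a : ℕ → ℕ) : ℕ → ℤ
  | 0 => 1
  | 1 => a 0
  | n + 2 => a (n + 1) * qn a (n + 1) + qn a n

theorem qn_pos (a : ℕ → ℕ) (ha : ∀ i, 1 ≤ a i) : ∀ n, 0 < qn a n ∧ 0 < qn a (n + 1) := by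
  intro n
  induction n with
  | zero => exact ⟨by simp [qn], by have := ha 0; simp only [qn]; exact_mod_cast this⟩
  | succ n ih =>
    refine ⟨ih.2, ?_⟩
    have : (1 : ℤ) ≤ a (n + 1) := by exact_mod_cast ha _
    simp only [qn]
    nlinarith [ih.1, ih.2]

theorem qn_mono (a : ℕ → ℕ) (ha : ∀ i, 1 ≤ a i) : Monotone (qn a) := by
  refine monotone_nat_of_le_succ fun n => ?_
  rcases n with _ | n
  · have := ha 0; simp only [qn]; exact_mod_cast this
  · have : (1 : ℤ) ≤ a (n + 1) := by exact_mod_cast ha _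
    simp only [qn]
    nlinarith [(qn_pos a ha n).1, (qn_pos a ha n).2]

theorem qn_lower (a : ℕ → ℕ) (ha : ∀ i, 1 ≤ a i) (n : ℕ) : (a n : ℤ) * qn a n ≤ qn a (n + 1) := by
  rcases n with _ | n
  · simp [qn]
  · simp only [qn]; linarith [(qn_pos a ha n).1]

theorem qn_upper (a : ℕ → ℕ) (ha : ∀ i, 1 ≤ a i) (n : ℕ) :
    qn a (n + 1) ≤ ((a n : ℤ) + 1) * qn a n := by
  rcases n with _ | n
  · simp only [qn]; nlinarith
  · have := qn_mono a ha (Nat.le_succ n)
    simp only [qn, Nat.succ_eq_add_one] at this ⊢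
    linarith

theorem det_pq (a : ℕ → ℕ) (n : ℕ) :
    pn a n * qn a (n + 1) - pn a (n + 1) * qn a n = -(-1) ^ n := by
  induction n with
  | zero => simp [pn, qn]
  | succ n ih =>
    simp only [pn, qn]
    rw [pow_succ]
    linear_combination -ih

/-- the error `q_n x - p_n` -/
noncomputable def er (a : ℕ → ℕ) (x : ℝ) (n : ℕ) : ℝ := qn a n * x - pn a n

theorem er_rec {a : ℕ → ℕ} {t : ℕ → ℝ} (ht : Tl a t) (n : ℕ) :
    er a (t 0) (n + 1) = -t (n + 1) * er a (t 0) n := by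
  induction n with
  | zero =>
    simp only [er, qn, pn]
    push_cast
    linear_combination ht.step 0
  | succ n ih =>
    have h : er a (t 0) (n + 2) = a (n + 1) * er a (t 0) (n + 1) + er a (t 0) n := by
      simp only [er, qn, pn]; push_cast; ring
    have h2 := ht.step (n + 1)
    have h3 := ht.pos (n + 1)
    have h4 : t (n + 1) * er a (t 0) (n + 2) = t (n + 1) * (-t (n + 1 + 1) * er a (t 0) (n + 1)) := by
      rw [h]
      linear_combination (er a (t 0) (n + 1)) * h2 + ih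
    exact mul_left_cancel₀ h3.ne' h4

theorem er_sign {a : ℕ → ℕ} {t : ℕ → ℝ} (ht : Tl a t) (n : ℕ) : 0 < (-1) ^ n * er a (t 0) n := by
  induction n with
  | zero => simpa [er, qn, pn] using ht.pos 0
  | succ n ih =>
    rw [er_rec ht, pow_succ]
    have := mul_pos (ht.pos (n + 1)) ih
    linarith

theorem er_abs {a : ℕ → ℕ} {t : ℕ → ℝ} (ht : Tl a t) (n : ℕ) :
    |er a (t 0) n| = (-1) ^ n * er a (t 0) n := by
  rw [← abs_of_pos (er_sign ht n), abs_mul, abs_pow, abs_neg, abs_one, one_pow, one_mul]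

theorem er_id {a : ℕ → ℕ} {t : ℕ → ℝ} (ht : Tl a t) (n : ℕ) :
    (qn a (n + 1) : ℝ) * |er a (t 0) n| + qn a n * |er a (t 0) (n + 1)| = 1 := by
  rw [er_abs ht, er_abs ht, er, er]
  have h : (pn a n : ℝ) * qn a (n + 1) - pn a (n + 1) * qn a n = -(-1) ^ n := by
    exact_mod_cast det_pq a n
  have h2 : ((-1 : ℝ) ^ n) * (-1) ^ n = 1 := by rw [← mul_pow]; simp
  rw [pow_succ]
  linear_combination (-(-1 : ℝ) ^ n) * h + h2

theorem er_lt {a : ℕ → ℕ} {t : ℕ → ℝ} (ha : ∀ i, 1 ≤ a i) (ht : Tl a t) (n : ℕ) :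
    (qn a (n + 1) : ℝ) * |er a (t 0) n| < 1 := by
  have h := er_id ht n
  have h1 : (0 : ℝ) < qn a n := by exact_mod_cast (qn_pos a ha n).1
  have h2 : 0 < |er a (t 0) (n + 1)| := by rw [er_abs ht]; exact er_sign ht _
  nlinarith [mul_pos h1 h2]

theorem er_succ_le {a : ℕ → ℕ} {t : ℕ → ℝ} (ht : Tl a t) (n : ℕ) :
    |er a (t 0) (n + 1)| ≤ |er a (t 0) n| := by
  rw [er_rec ht, abs_mul, abs_neg, abs_of_pos (ht.pos _)]
  nlinarith [abs_nonneg (er a (t 0) n), ht.lt (n + 1)]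

theorem er_gt {a : ℕ → ℕ} {t : ℕ → ℝ} (ha : ∀ i, 1 ≤ a i) (ht : Tl a t) (n : ℕ) :
    1 ≤ 2 * (qn a (n + 1) : ℝ) * |er a (t 0) n| := by
  have h := er_id ht n
  have h0 : (qn a n : ℝ) ≤ qn a (n + 1) := by exact_mod_cast qn_mono a ha (Nat.le_succ n)
  have h1 : (0 : ℝ) < qn a n := by exact_mod_cast (qn_pos a ha n).1
  have h2 := er_succ_le ht n
  have h3 := abs_nonneg (er a (t 0) (n + 1))
  nlinarith [mul_le_mul h0 h2 h3 (by linarith : (0 : ℝ) ≤ qn a (n + 1))]

theorem qn_unbdd (a : ℕ → ℕ) (ha : ∀ i, 1 ≤ a i) (n : ℕ) : (n : ℤ) ≤ qn a n := by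
  have h : ∀ n : ℕ, (n : ℤ) ≤ qn a n ∧ (n : ℤ) + 1 ≤ qn a (n + 1) ∨ n = 0 := by
    intro n
    induction n with
    | zero => right; rfl
    | succ n ih =>
      left
      rcases ih with ih | rfl
      · have : (1 : ℤ) ≤ a (n + 1) := by exact_mod_cast ha _
        have h2 := (qn_pos a ha n).1
        refine ⟨by push_cast; exact ih.2, ?_⟩
        simp only [qn]
        push_cast
        rcases n with _ | n
        · simp only [qn] at *
          nlinarith [(qn_pos a ha 0).2]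
        · nlinarith [ih.1, ih.2, (qn_pos a ha (n + 1)).2]
      · have h0 : (1 : ℤ) ≤ a 0 := by exact_mod_cast ha _
        have h1 : (1 : ℤ) ≤ a 1 := by exact_mod_cast ha _
        simp only [qn]
        push_cast
        constructor <;> nlinarith
  rcases h n with h | rfl
  · exact h.1
  · simp [qn]

/-- Legendre's lemma: good approximations are multiples of convergents. -/
theorem legendre {a : ℕ → ℕ} {t : ℕ → ℝ} (ha : ∀ i, 1 ≤ a i) (ht : Tl a t) {u w : ℤ}
    (hw : 0 < w) (h : (w : ℝ) * |w * t 0 - u| < 1 / 4) :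
    ∃ (m : ℕ) (α : ℤ), u = α * pn a m ∧ w = α * qn a m := by
  -- the index
  have hex : ∃ m, w < qn a (m + 1) := by
    obtain ⟨k, hk⟩ := Int.eq_ofNat_of_zero_le hw.le
    refine ⟨k, ?_⟩
    have := qn_unbdd a ha (k + 1)
    push_cast at this
    rw [hk]
    omega
  classical
  let m := Nat.find hex
  have hm : w < qn a (m + 1) := Nat.find_spec hex
  have hm' : qn a m ≤ w := by
    rcases Nat.eq_zero_or_pos m with h0 | h0
    · rw [h0]; simp only [qn]; omega
    · have := Nat.find_min hex (m := m - 1) (by omega)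
      rw [Nat.sub_add_cancel h0] at this
      omega
  -- coordinates
  have hd := det_pq a m
  have hs : ((-1 : ℤ) ^ m) * (-1) ^ m = 1 := by rw [← mul_pow]; simp
  set s : ℤ := (-1) ^ m with hsdef
  let α : ℤ := -s * (u * qn a (m + 1) - w * pn a (m + 1))
  let β : ℤ := s * (u * qn a m - w * pn a m)
  have hu : u = α * pn a m + β * pn a (m + 1) := by
    simp only [α, β]
    linear_combination (u * s) * hd - u * hs
  have hw2 : w = α * qn a m + β * qn a (m + 1) := by
    simp only [α, β]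
    linear_combination (w * s) * hd - w * hs
  have hq0 := (qn_pos a ha m).1
  have hq1 := (qn_pos a ha m).2
  by_cases hβ : β = 0
  · exact ⟨m, α, by rw [hu, hβ]; ring, by rw [hw2, hβ]; ring⟩
  exfalso
  have hα : α ≠ 0 := by
    intro h0
    rw [h0, zero_mul, zero_add] at hw2
    have : 0 < β := by
      by_contra hc
      nlinarith
    nlinarith
  -- opposite signs
  have hopp : α * β < 0 := by
    rcases lt_or_gt_of_ne hα with h1 | h1 <;> rcases lt_or_gt_of_ne hβ with h2 | h2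
    · nlinarith
    · exact mul_neg_of_neg_of_pos h1 h2
    · exact mul_neg_of_pos_of_neg h1 h2
    · nlinarith
  have herr : (w : ℝ) * t 0 - u = α * er a (t 0) m + β * er a (t 0) (m + 1) := by
    have h1 : (u : ℝ) = α * pn a m + β * pn a (m + 1) := by exact_mod_cast hu
    have h2 : (w : ℝ) = α * qn a m + β * qn a (m + 1) := by exact_mod_cast hw2
    rw [er, er, h1, h2]; ring
  have hE := er_rec ht m
  have habs : |(w : ℝ) * t 0 - u| = |(α : ℝ)| * |er a (t 0) m| +
      |(β : ℝ)| * |er a (t 0) (m + 1)| := by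
    rw [herr, ← abs_mul, ← abs_mul]
    have hp : 0 ≤ (α * er a (t 0) m) * (β * er a (t 0) (m + 1)) := by
      rw [hE]
      have h1 : ((α : ℝ) * β) < 0 := by exact_mod_cast hopp
      have h2 := ht.pos (m + 1)
      have : (α * er a (t 0) m) * (β * (-t (m + 1) * er a (t 0) m)) =
        (-(α * β : ℝ)) * (t (m + 1) * (er a (t 0) m) ^ 2) := by ring
      rw [this]
      exact mul_nonneg (by linarith) (by positivity)
    exact abs_add_eq_add_abs_iff _ _ |>.2 (mul_nonneg_iff.1 hp |>.imp id id)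
  have hg := er_gt ha ht m
  have hA : (1 : ℝ) ≤ |(α : ℝ)| := by exact_mod_cast Int.one_le_abs hα
  have hwr : (0 : ℝ) < w := by exact_mod_cast hw
  have hq0r : (0 : ℝ) < qn a m := by exact_mod_cast hq0
  have hq1r : (0 : ℝ) < qn a (m + 1) := by exact_mod_cast hq1
  have hmr : (qn a m : ℝ) ≤ w := by exact_mod_cast hm'
  have hmr1 : (w : ℝ) < qn a (m + 1) := by exact_mod_cast hm
  have hX := abs_nonneg (er a (t 0) m)
  have hlow : |(α : ℝ)| * |er a (t 0) m| ≤ |(w : ℝ) * t 0 - u| := by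
    rw [habs]; linarith [mul_nonneg (abs_nonneg (β : ℝ)) (abs_nonneg (er a (t 0) (m + 1)))]
  -- lower bound for `|α| q_m`
  have hαq : (qn a (m + 1) : ℝ) - w ≤ |(α : ℝ)| * qn a m := by
    have h2 : (w : ℝ) = α * qn a m + β * qn a (m + 1) := by exact_mod_cast hw2
    rcases lt_or_gt_of_ne hβ with h1 | h1
    · have h3 : (β : ℝ) ≤ -1 := by exact_mod_cast (by omega : β ≤ -1)
      have h4 : (α : ℝ) ≤ |(α : ℝ)| := le_abs_self _
      nlinarith
    · have h3 : (1 : ℝ) ≤ β := by exact_mod_cast h1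
      have h4 : -(α : ℝ) ≤ |(α : ℝ)| := neg_le_abs _
      nlinarith
  by_cases hc : (qn a (m + 1) : ℝ) ≤ 2 * w
  · -- `w ≥ q_(m+1)/2`
    have h1 : |er a (t 0) m| ≤ |(w : ℝ) * t 0 - u| := by nlinarith
    have h2 : (w : ℝ) * |er a (t 0) m| < 1 / 4 := by nlinarith
    nlinarith
  · push Not at hc
    have h1 : (w : ℝ) * (|(α : ℝ)| * |er a (t 0) m|) < 1 / 4 := by nlinarith
    have h2 : (qn a m : ℝ) * |(α : ℝ)| * |er a (t 0) m| < 1 / 4 := by
      have h3 : 0 ≤ |(α : ℝ)| * |er a (t 0) m| := by positivity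
      nlinarith
    nlinarith

end Pool.Agent.W_d96d20_h7
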