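import Pool.Agent.W_d96d20_h7.Main

/-!
# Arithmetic progressions: `[0; a, a+b, a+2b, ...]` as a quotient of values of `0F1`
-/

set_option autoImplicit false

open Filter Topology

namespace Pool.Agent.W_d96d20_h7

/-- The hypergeometric series `0F1(; c; z) = ∑ z^j / (j! c (c+1) ... (c+j-1))`. -/
noncomputable def hyp (c z : ℝ) : ℝ :=
  ∑' j : ℕ, z ^ j / (j.factorial * ∏ i ∈ Finset.range j, (c + i))

/-- the terms of the series -/
noncomputable def tm (c z : ℝ) (j : ℕ) : ℝ := z ^ j / (j.factorial * ∏ i ∈ Finset.range j, (c + i))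

theorem tm_nonneg {c z : ℝ} (hc : 0 < c) (hz : 0 ≤ z) (j : ℕ) : 0 ≤ tm c z j := by
  unfold tm
  have : 0 < ∏ i ∈ Finset.range j, (c + i) := Finset.prod_pos fun i _ => by positivity
  positivity

theorem prod_ge {c : ℝ} (hc : 0 < c) (j : ℕ) : min 1 c ≤ ∏ i ∈ Finset.range j, (c + i) := by
  rcases j with _ | j
  · simp
  · rw [Finset.prod_range_succ']
    have h1 : (1 : ℝ) ≤ ∏ i ∈ Finset.range j, (c + ((i + 1 : ℕ) : ℝ)) := by
      refine Finset.prod_induction _ (fun x : ℝ => 1 ≤ x) (fun a b ha hb => ?_) le_rfl fun i _ => ?_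
      · nlinarith
      · push_cast
        have : (0 : ℝ) ≤ i := by positivity
        linarith
    have h2 : min 1 c ≤ c := min_le_right _ _
    simp only [Nat.cast_zero, add_zero]
    nlinarith

theorem tm_summable {c z : ℝ} (hc : 0 < c) (hz : 0 ≤ z) : Summable (tm c z) := by
  have hm : 0 < min 1 c := lt_min one_pos hc
  refine Summable.of_nonneg_of_le (tm_nonneg hc hz) (fun j => ?_)
    ((Real.summable_pow_div_factorial z).mul_left (1 / min 1 c))
  unfold tm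
  have h1 : 0 < ∏ i ∈ Finset.range j, (c + i) := Finset.prod_pos fun i _ => by positivity
  have h2 := prod_ge hc j
  have h3 : (0 : ℝ) < j.factorial := by exact_mod_cast j.factorial_pos
  rw [div_mul_div_comm, one_mul, div_le_div_iff₀ (by positivity) (by positivity)]
  have h4 : 0 ≤ z ^ j := by positivity
  nlinarith [mul_le_mul_of_nonneg_left (mul_le_mul_of_nonneg_right h2 h3.le) h4]

theorem hyp_eq (c z : ℝ) : hyp c z = ∑' j, tm c z j := rfl

theorem hyp_pos {c z : ℝ} (hc : 0 < c) (hz : 0 ≤ z) : 0 < hyp c z := by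
  rw [hyp_eq]
  refine (tm_summable hc hz).tsum_pos (tm_nonneg hc hz) 0 ?_
  simp [tm]

theorem tm_zero (c z : ℝ) : tm c z 0 = 1 := by simp [tm]

theorem tm_rec {c z : ℝ} (hc : 0 < c) (j : ℕ) :
    tm c z (j + 1) = tm (c + 1) z (j + 1) + z / (c * (c + 1)) * tm (c + 2) z j := by
  have e1 : ∏ i ∈ Finset.range (j + 1), (c + (i : ℝ)) =
      c * ∏ i ∈ Finset.range j, (c + 1 + (i : ℝ)) := by
    rw [Finset.prod_range_succ', mul_comm]
    simp only [Nat.cast_zero, add_zero]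
    congr 1
    exact Finset.prod_congr rfl fun i _ => by push_cast; ring
  have e2 : ∏ i ∈ Finset.range (j + 1), (c + 1 + (i : ℝ)) =
      (c + 1 + j) * ∏ i ∈ Finset.range j, (c + 1 + (i : ℝ)) := by
    rw [Finset.prod_range_succ, mul_comm]
  have e3 : (c + 1) * ∏ i ∈ Finset.range j, (c + 2 + (i : ℝ)) =
      (c + 1 + j) * ∏ i ∈ Finset.range j, (c + 1 + (i : ℝ)) := by
    rw [← e2, Finset.prod_range_succ', mul_comm]
    simp only [Nat.cast_zero, add_zero]
    congr 1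
    exact Finset.prod_congr rfl fun i _ => by push_cast; ring
  have hP : 0 < ∏ i ∈ Finset.range j, (c + 1 + (i : ℝ)) :=
    Finset.prod_pos fun i _ => by positivity
  have hQ : 0 < ∏ i ∈ Finset.range j, (c + 2 + (i : ℝ)) :=
    Finset.prod_pos fun i _ => by positivity
  unfold tm
  rw [e1, e2, Nat.factorial_succ]
  set P := ∏ i ∈ Finset.range j, (c + 1 + (i : ℝ))
  set Q := ∏ i ∈ Finset.range j, (c + 2 + (i : ℝ))
  have hf : (0 : ℝ) < j.factorial := by exact_mod_cast j.factorial_pos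
  have hj : (0 : ℝ) ≤ j := by positivity
  have hQe : Q = (c + 1 + j) * P / (c + 1) := by
    rw [eq_div_iff (by linarith)]; linarith
  rw [hQe]
  push_cast
  field_simp
  ring

theorem hyp_rec {c z : ℝ} (hc : 0 < c) (hz : 0 ≤ z) :
    hyp c z = hyp (c + 1) z + z / (c * (c + 1)) * hyp (c + 2) z := by
  have s1 := tm_summable (z := z) (by linarith : 0 < c + 1) hz
  have s2 := tm_summable (z := z) (by linarith : 0 < c + 2) hz
  rw [hyp_eq, hyp_eq, hyp_eq, (tm_summable hc hz).tsum_eq_zero_add, s1.tsum_eq_zero_add, tm_zero,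
    tm_zero, ← tsum_mul_left, add_assoc,
    ← ((summable_nat_add_iff 1).2 s1).tsum_add (s2.mul_left _)]
  congr 1
  exact tsum_congr fun j => tm_rec hc j

/-- the complete quotients of `[0; a, a+b, ...]` -/
theorem tl_ap (a b : ℕ) (ha : 1 ≤ a) (hb : 1 ≤ b) :
    Tl (fun n => a + n * b) fun n => hyp ((a : ℝ) / b + n + 1) (1 / (b : ℝ) ^ 2) /
      (b * ((a : ℝ) / b + n) * hyp ((a : ℝ) / b + n) (1 / (b : ℝ) ^ 2)) := by
  have hb0 : (0 : ℝ) < b := by exact_mod_cast hb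
  have ha0 : (0 : ℝ) < a := by exact_mod_cast ha
  have hz : (0 : ℝ) ≤ 1 / (b : ℝ) ^ 2 := by positivity
  have hcp : ∀ n : ℕ, (0 : ℝ) < (a : ℝ) / b + n := fun n => by positivity
  have hpos : ∀ n : ℕ, 0 < hyp ((a : ℝ) / b + n + 1) (1 / (b : ℝ) ^ 2) /
      (b * ((a : ℝ) / b + n) * hyp ((a : ℝ) / b + n) (1 / (b : ℝ) ^ 2)) := fun n => by
    have h1 := hyp_pos (c := (a : ℝ) / b + n + 1) (by linarith [hcp n]) hz
    have h2 := hyp_pos (hcp n) hz
    have h3 := hcp n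
    positivity
  have hstep : ∀ n : ℕ, hyp ((a : ℝ) / b + n + 1) (1 / (b : ℝ) ^ 2) /
      (b * ((a : ℝ) / b + n) * hyp ((a : ℝ) / b + n) (1 / (b : ℝ) ^ 2)) *
      (((a + n * b : ℕ) : ℝ) + hyp ((a : ℝ) / b + ((n + 1 : ℕ) : ℝ) + 1) (1 / (b : ℝ) ^ 2) /
      (b * ((a : ℝ) / b + ((n + 1 : ℕ) : ℝ)) *
        hyp ((a : ℝ) / b + ((n + 1 : ℕ) : ℝ)) (1 / (b : ℝ) ^ 2))) = 1 := by
    intro n
    have e1 : (a : ℝ) / b + ((n + 1 : ℕ) : ℝ) = (a : ℝ) / b + n + 1 := by push_cast; ring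
    have e2 : ((a + n * b : ℕ) : ℝ) = b * ((a : ℝ) / b + n) := by
      push_cast; field_simp
    rw [e1, e2]
    set c : ℝ := (a : ℝ) / b + n with hc
    have hc0 : 0 < c := hcp n
    have h0 := hyp_pos hc0 hz
    have h1 := hyp_pos (c := c + 1) (by linarith) hz
    have hr := hyp_rec hc0 hz
    rw [show c + 1 + 1 = c + 2 by ring]
    set H0 := hyp c (1 / (b : ℝ) ^ 2)
    set H1 := hyp (c + 1) (1 / (b : ℝ) ^ 2)
    set H2 := hyp (c + 2) (1 / (b : ℝ) ^ 2)
    have hr2 : b ^ 2 * c * (c + 1) * H0 = b ^ 2 * c * (c + 1) * H1 + H2 := by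
      rw [hr]
      field_simp
    have hc1 : 0 < c + 1 := by linarith
    have e3 : H1 / (b * c * H0) * (b * c + H2 / (b * (c + 1) * H1)) =
        (b ^ 2 * c * (c + 1) * H1 + H2) / (b ^ 2 * c * (c + 1) * H0) := by
      field_simp
    rw [e3, ← hr2, div_self (by positivity)]
  refine ⟨hpos, fun n => ?_, hstep⟩
  have h1 := hstep n
  have h2 := hpos n
  have h3 := hpos (n + 1)
  have h4 : (1 : ℝ) ≤ ((a + n * b : ℕ) : ℝ) := by exact_mod_cast (by omega : 1 ≤ a + n * b)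
  by_contra hcon
  push Not at hcon
  nlinarith

theorem cf_ap (a b : ℕ) (ha : 1 ≤ a) (hb : 1 ≤ b) :
    cf (fun n => a + n * b) =
      hyp ((a : ℝ) / b + 1) (1 / (b : ℝ) ^ 2) / (a * hyp ((a : ℝ) / b) (1 / (b : ℝ) ^ 2)) := by
  have hb0 : (b : ℝ) ≠ 0 := by exact_mod_cast (by omega : b ≠ 0)
  rw [cf_eq_of_tl (fun i => by omega) (tl_ap a b ha hb)]
  simp only [Nat.cast_zero, add_zero]
  congr 2
  field_simp

theorem prod_half (j : ℕ) : (4 : ℝ) ^ j * j.factorial * ∏ i ∈ Finset.range j, (1 / 2 + (i : ℝ)) =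
    (2 * j).factorial := by
  induction j with
  | zero => simp
  | succ j ih =>
    rw [Finset.prod_range_succ, Nat.factorial_succ, show 2 * (j + 1) = 2 * j + 1 + 1 by ring,
      Nat.factorial_succ, Nat.factorial_succ]
    push_cast
    rw [← ih]
    ring

theorem prod_three_half (j : ℕ) :
    (4 : ℝ) ^ j * j.factorial * ∏ i ∈ Finset.range j, (3 / 2 + (i : ℝ)) =
      (2 * j + 1).factorial := by
  induction j with
  | zero => simp
  | succ j ih =>
    rw [Finset.prod_range_succ, Nat.factorial_succ, show 2 * (j + 1) + 1 = 2 * j + 1 + 1 + 1 by ring,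
      Nat.factorial_succ, Nat.factorial_succ (2 * j + 1)]
    push_cast
    rw [← ih]
    ring

theorem hyp_half (k : ℕ) (hk : 1 ≤ k) :
    hyp (1 / 2) (1 / (2 * k : ℝ) ^ 2) = Real.cosh (1 / k) := by
  have hk0 : (k : ℝ) ≠ 0 := by exact_mod_cast (by omega : k ≠ 0)
  rw [Real.cosh_eq_tsum, hyp]
  refine tsum_congr fun j => ?_
  rw [← prod_half]
  have hP : 0 < ∏ i ∈ Finset.range j, (1 / 2 + (i : ℝ)) :=
    Finset.prod_pos fun i _ => by positivity
  have hf : (j.factorial : ℝ) ≠ 0 := by exact_mod_cast j.factorial_ne_zero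
  rw [div_pow, one_pow, div_pow, one_pow, ← pow_mul, mul_pow, pow_mul (2 : ℝ)]
  norm_num
  field_simp

theorem hyp_three_half (k : ℕ) (hk : 1 ≤ k) :
    hyp (3 / 2) (1 / (2 * k : ℝ) ^ 2) = k * Real.sinh (1 / k) := by
  have hk0 : (k : ℝ) ≠ 0 := by exact_mod_cast (by omega : k ≠ 0)
  rw [Real.sinh_eq_tsum, hyp, ← tsum_mul_left]
  refine tsum_congr fun j => ?_
  rw [← prod_three_half]
  have hP : 0 < ∏ i ∈ Finset.range j, (3 / 2 + (i : ℝ)) :=
    Finset.prod_pos fun i _ => by positivity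
  have hf : (j.factorial : ℝ) ≠ 0 := by exact_mod_cast j.factorial_ne_zero
  rw [div_pow, one_pow, div_pow, one_pow, ← pow_mul, mul_pow, pow_mul (2 : ℝ), pow_succ]
  norm_num
  field_simp
  rw [pow_succ]

/-- `[0; k, 3k, 5k, ...] = tanh(1/k)` -/
theorem cf_tanh (k : ℕ) (hk : 1 ≤ k) :
    cf (fun n => k + n * (2 * k)) = Real.sinh (1 / k) / Real.cosh (1 / k) := by
  have hk0 : (k : ℝ) ≠ 0 := by exact_mod_cast (by omega : k ≠ 0)
  rw [cf_ap k (2 * k) hk (by omega)]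
  push_cast
  have e1 : (k : ℝ) / (2 * k) = 1 / 2 := by field_simp
  rw [e1, show (1 : ℝ) / 2 + 1 = 3 / 2 by norm_num, hyp_half k hk, hyp_three_half k hk]
  have := Real.cosh_pos (1 / (k : ℝ))
  field_simp

end Pool.Agent.W_d96d20_h7
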