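import Pool.Agent.W_d96d20_h7.Conv

/-!
# Two continued fractions of different growth are not related over the rationals
-/

set_option autoImplicit false

open Filter Topology

namespace Pool.Agent.W_d96d20_h7

theorem irr {a : ℕ → ℕ} {t : ℕ → ℝ} (ha : ∀ i, 1 ≤ a i) (ht : Tl a t) {A B : ℤ}
    (h : (A : ℝ) + B * t 0 = 0) : A = 0 ∧ B = 0 := by
  have hB : B = 0 := by
    by_contra hB
    -- `B (q_n x - p_n)` is a nonzero integer of absolute value `< |B| / q_(n+1)`
    obtain ⟨n, hn⟩ : ∃ n : ℕ, |B| ≤ (n : ℤ) := ⟨B.natAbs, by simp⟩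
    have h1 : (B : ℝ) * er a (t 0) n = ((-(A * qn a n + B * pn a n) : ℤ) : ℝ) := by
      rw [er]; push_cast; linear_combination (qn a n : ℝ) * h
    have hne : er a (t 0) n ≠ 0 := by
      intro h0
      have := er_sign ht n
      rw [h0, mul_zero] at this
      exact lt_irrefl _ this
    have h2 : -(A * qn a n + B * pn a n) ≠ 0 := by
      intro h0
      rw [h0, Int.cast_zero] at h1
      exact (mul_ne_zero (by exact_mod_cast hB) hne) h1
    have h3 : (1 : ℝ) ≤ |(B : ℝ)| * |er a (t 0) n| := by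
      rw [← abs_mul, h1]
      exact_mod_cast Int.one_le_abs h2
    have h4 := er_lt ha ht n
    have h5 : |(B : ℝ)| ≤ qn a (n + 1) := by
      have := qn_unbdd a ha (n + 1)
      have h6 : |B| ≤ qn a (n + 1) := by push_cast at this; omega
      exact_mod_cast h6
    nlinarith [abs_nonneg (er a (t 0) n)]
  refine ⟨?_, hB⟩
  rw [hB] at h
  simpa using h

/-- **Theorem.** `a n ≤ μ n + K`, `a n → ∞`, `b n ≥ λ n` for large `n`, `μ < λ`: no rational relation. -/
theorem no_relation {a b : ℕ → ℕ} {t s : ℕ → ℝ} (ha : ∀ i, 1 ≤ a i) (hb : ∀ i, 1 ≤ b i)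
    (ht : Tl a t) (hs : Tl b s) {μ K lam : ℝ} (hμ : 0 < μ) (hml : μ < lam)
    (hau : ∀ n : ℕ, (a n : ℝ) ≤ μ * n + K) (hal : Tendsto (fun n => (a n : ℝ)) atTop atTop)
    (hbl : ∀ᶠ n : ℕ in atTop, lam * n ≤ b n)
    {A B C D : ℤ} (h : (A : ℝ) + B * t 0 + C * s 0 + D * (t 0 * s 0) = 0)
    (hdet : A * D - B * C ≠ 0) : False := by
  set x := t 0 with hx
  set y := s 0 with hy
  have hκ : (C : ℝ) + D * x ≠ 0 := by
    intro h0
    have := irr ha ht h0
    apply hdet
    rw [this.1, this.2]; ring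
  set κ : ℝ := |(C : ℝ) + D * x| with hκd
  have hκ0 : 0 < κ := abs_pos.2 hκ
  let u : ℕ → ℤ := fun n => -(B * pn a n + A * qn a n)
  let w : ℕ → ℤ := fun n => D * pn a n + C * qn a n
  have hw : ∀ n, (w n : ℝ) = qn a n * (C + D * x) - D * er a x n := by
    intro n; simp only [w, er]; push_cast; ring
  have hwy : ∀ n, (w n : ℝ) * y - u n = -(D * y + B) * er a x n := by
    intro n
    simp only [w, u, er]; push_cast
    linear_combination (qn a n : ℝ) * h
  have hΔ1 : ∀ n, C * u n + A * w n = (A * D - B * C) * pn a n := by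
    intro n; simp only [w, u]; ring
  have hΔ2 : ∀ n, D * u n + B * w n = -(A * D - B * C) * qn a n := by
    intro n; simp only [w, u]; ring
  have hqpos : ∀ n, (0 : ℝ) < qn a n := fun n => by exact_mod_cast (qn_pos a ha n).1
  have hq1 : ∀ n, (1 : ℝ) ≤ qn a n := fun n => by
    exact_mod_cast (by have := (qn_pos a ha n).1; omega : 1 ≤ qn a n)
  have her1 : ∀ n, |er a x n| ≤ 1 := by
    intro n
    have := er_lt ha ht n
    have h2 := hq1 (n + 1)
    nlinarith [abs_nonneg (er a x n)]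
  have hqlow : ∀ n, (a n : ℝ) * qn a n ≤ qn a (n + 1) := fun n => by exact_mod_cast qn_lower a ha n
  have hqup : ∀ n, (qn a (n + 1) : ℝ) ≤ (a n + 1) * qn a n := fun n => by
    exact_mod_cast qn_upper a ha n
  -- `q_n → ∞`
  have hqinf : Tendsto (fun n => (qn a n : ℝ)) atTop atTop := by
    refine tendsto_atTop_mono (fun n => ?_) tendsto_natCast_atTop_atTop
    exact_mod_cast qn_unbdd a ha n
  -- size of `w`
  have hwsize : ∀ᶠ n in atTop, κ / 2 * qn a n ≤ |(w n : ℝ)| ∧ |(w n : ℝ)| ≤ 2 * κ * qn a n := by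
    filter_upwards [hqinf.eventually_ge_atTop (2 * |(D : ℝ)| / κ + 1)] with n hn
    have h1 : |(D : ℝ) * er a x n| ≤ |(D : ℝ)| := by
      rw [abs_mul]; nlinarith [her1 n, abs_nonneg (D : ℝ)]
    have h2 : |(D : ℝ)| ≤ κ / 2 * qn a n := by
      have : 2 * |(D : ℝ)| / κ ≤ qn a n := by linarith
      rw [div_le_iff₀ hκ0] at this
      linarith
    have h3 : |(qn a n : ℝ) * (C + D * x)| = qn a n * κ := by
      rw [abs_mul, abs_of_pos (hqpos n)]
    have h4 := abs_sub_abs_le_abs_sub ((qn a n : ℝ) * (C + D * x)) (D * er a x n)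
    have h5 := abs_sub ((qn a n : ℝ) * (C + D * x)) (D * er a x n)
    rw [h3] at h4 h5
    rw [hw n]
    constructor
    · linarith
    · have := mul_pos hκ0 (hqpos n)
      linarith
  -- good approximations
  have hgood : ∀ᶠ n in atTop, |(w n : ℝ)| * |(w n : ℝ) * y - u n| < 1 / 4 := by
    have hc : 0 ≤ 2 * κ * |(D : ℝ) * y + B| := by positivity
    filter_upwards [hwsize, hal.eventually_ge_atTop (4 * (2 * κ * |(D : ℝ) * y + B|) + 1)]
      with n hn h2
    rw [hwy n, abs_mul, abs_neg]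
    have h3 := er_lt ha ht n
    have h4 := hqlow n
    have h5 : (qn a n : ℝ) * |er a x n| * a n < 1 := by
      nlinarith [abs_nonneg (er a x n)]
    have h6 : 0 ≤ (qn a n : ℝ) * |er a x n| := mul_nonneg (hqpos n).le (abs_nonneg _)
    have h7 : 0 ≤ |(D : ℝ) * y + B| * |er a x n| := by positivity
    calc |(w n : ℝ)| * (|(D : ℝ) * y + B| * |er a x n|)
        ≤ (2 * κ * qn a n) * (|(D : ℝ) * y + B| * |er a x n|) :=
          mul_le_mul_of_nonneg_right hn.2 h7
      _ = (2 * κ * |(D : ℝ) * y + B|) * (qn a n * |er a x n|) := by ring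
      _ < 1 / 4 := by
          set g := (qn a n : ℝ) * |er a x n|
          set c := 2 * κ * |(D : ℝ) * y + B|
          nlinarith
  -- the matching convergents
  have hmatch : ∀ᶠ n in atTop, ∃ m : ℕ,
      κ / (2 * |((A * D - B * C : ℤ) : ℝ)|) * qn a n ≤ qn b m ∧ (qn b m : ℝ) ≤ 2 * κ * qn a n := by
    filter_upwards [hwsize, hgood] with n h1 h2
    have hw0 : w n ≠ 0 := by
      intro h0
      rw [h0] at h1
      have := mul_pos hκ0 (hqpos n)
      simp at h1
      linarith [h1.1]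
    -- normalise the sign
    obtain ⟨m, α, hu, hwm⟩ : ∃ (m : ℕ) (α : ℤ), u n = α * pn b m ∧ w n = α * qn b m := by
      rcases lt_or_gt_of_ne hw0 with hneg | hpos
      · obtain ⟨m, α, e1, e2⟩ := legendre hb hs (u := -u n) (w := -w n) (by omega) (by
          have h3 : (w n : ℝ) < 0 := by exact_mod_cast hneg
          rw [abs_of_neg h3] at h2
          push_cast
          have : -(w n : ℝ) * y - -(u n : ℝ) = -((w n : ℝ) * y - u n) := by ring
          rw [this, abs_neg]
          exact h2)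
        exact ⟨m, -α, by linarith, by linarith⟩
      · refine legendre hb hs hpos ?_
        rwa [abs_of_pos (by exact_mod_cast hpos)] at h2
    have hα0 : α ≠ 0 := by rintro rfl; exact hw0 (by simpa using hwm)
    have hαd : |α| ≤ |A * D - B * C| := by
      refine Int.le_of_dvd (abs_pos.2 hdet) ?_
      rw [abs_dvd_abs]
      have d1 : α ∣ (A * D - B * C) * pn a n := by
        rw [← hΔ1 n, hu, hwm]
        exact ⟨C * pn b m + A * qn b m, by ring⟩
      have d2 : α ∣ (A * D - B * C) * qn a n := by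
        have := hΔ2 n
        rw [hu, hwm] at this
        exact ⟨-(D * pn b m + B * qn b m), by linear_combination this⟩
      have hd := det_pq a n
      have hs1 : ((-1 : ℤ) ^ n) * (-1) ^ n = 1 := by rw [← mul_pow]; simp
      have e : A * D - B * C = (-(-1) ^ n * qn a (n + 1)) * ((A * D - B * C) * pn a n) +
          ((-1) ^ n * pn a (n + 1)) * ((A * D - B * C) * qn a n) := by
        linear_combination ((A * D - B * C) * (-1) ^ n) * hd - (A * D - B * C) * hs1
      rw [e]
      exact dvd_add (Dvd.dvd.mul_left d1 _) (Dvd.dvd.mul_left d2 _)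
    have hqb : (0 : ℝ) < qn b m := by exact_mod_cast (qn_pos b hb m).1
    have e1 : |(w n : ℝ)| = |(α : ℝ)| * qn b m := by
      have : (w n : ℝ) = α * qn b m := by exact_mod_cast hwm
      rw [this, abs_mul, abs_of_pos hqb]
    have hα1 : (1 : ℝ) ≤ |(α : ℝ)| := by exact_mod_cast Int.one_le_abs hα0
    have hα2 : |(α : ℝ)| ≤ |((A * D - B * C : ℤ) : ℝ)| := by exact_mod_cast hαd
    have hΔ0 : 0 < |((A * D - B * C : ℤ) : ℝ)| := by linarith
    refine ⟨m, ?_, ?_⟩
    · have h3 : κ / 2 * qn a n ≤ |((A * D - B * C : ℤ) : ℝ)| * qn b m := by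
        calc κ / 2 * qn a n ≤ |(α : ℝ)| * qn b m := by rw [← e1]; exact h1.1
          _ ≤ _ := mul_le_mul_of_nonneg_right hα2 hqb.le
      have h4 : κ / (2 * |((A * D - B * C : ℤ) : ℝ)|) * qn a n =
          (κ / 2 * qn a n) / |((A * D - B * C : ℤ) : ℝ)| := by field_simp
      rw [h4, div_le_iff₀ hΔ0]
      linarith
    · calc (qn b m : ℝ) ≤ |(α : ℝ)| * qn b m := by nlinarith
        _ ≤ _ := by rw [← e1]; exact h1.2
  -- choose the matching index
  set c : ℝ := κ / (2 * |((A * D - B * C : ℤ) : ℝ)|) with hc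
  have hΔ0 : 0 < |((A * D - B * C : ℤ) : ℝ)| := abs_pos.2 (by exact_mod_cast hdet)
  have hc0 : 0 < c := by positivity
  have hlow1 : ∀ᶠ n in atTop, 2 * κ / c + 1 ≤ (a n : ℝ) := hal.eventually_ge_atTop _
  obtain ⟨N, hN⟩ := (hmatch.and hlow1).exists_forall_of_atTop
  choose m hm1 hm2 using fun j : ℕ => (hN (N + j) (Nat.le_add_right _ _)).1
  have hstep : ∀ j, m j < m (j + 1) := by
    intro j
    by_contra hcon
    push Not at hcon
    have h1 : (qn b (m (j + 1)) : ℝ) ≤ qn b (m j) := by exact_mod_cast qn_mono b hb hcon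
    have h2 := hm1 (j + 1)
    have h3 := hm2 j
    have h4 := hqlow (N + j)
    have h5 := (hN (N + j) (Nat.le_add_right _ _)).2
    have h6 : (2 * κ + c) ≤ c * a (N + j) := by
      have := mul_le_mul_of_nonneg_left h5 hc0.le
      have h7 : c * (2 * κ / c + 1) = 2 * κ + c := by field_simp
      linarith
    have h8 : c * (a (N + j) * qn a (N + j)) ≤ c * qn a (N + j + 1) :=
      mul_le_mul_of_nonneg_left h4 hc0.le
    have h9 := hqpos (N + j)
    have h10 : (2 * κ + c) * qn a (N + j) ≤ c * a (N + j) * qn a (N + j) :=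
      mul_le_mul_of_nonneg_right h6 h9.le
    have h11 : c * qn a (N + (j + 1)) ≤ 2 * κ * qn a (N + j) := by linarith
    have h12 : N + (j + 1) = N + j + 1 := by ring
    rw [h12] at h11
    nlinarith [mul_pos hc0 h9]
  have hmj : ∀ j, j ≤ m j := by
    intro j
    induction j with
    | zero => omega
    | succ j ih => have := hstep j; omega
  -- growth of the ratio
  let ρ : ℕ → ℝ := fun j => qn b (m j) / qn a (N + j)
  have hqbpos : ∀ k, (0 : ℝ) < qn b k := fun k => by exact_mod_cast (qn_pos b hb k).1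
  have hρpos : ∀ j, 0 < ρ j := fun j => div_pos (hqbpos _) (hqpos _)
  have hρle : ∀ j, ρ j ≤ 2 * κ := fun j => by
    simp only [ρ]; rw [div_le_iff₀ (hqpos _)]; exact hm2 j
  obtain ⟨δ, hδ0, hδ⟩ : ∃ δ : ℝ, 0 < δ ∧ (1 + δ) * μ < lam := by
    refine ⟨(lam - μ) / (2 * μ), by
      have : 0 < lam - μ := by linarith
      positivity, ?_⟩
    field_simp
    nlinarith
  have hratio : ∀ᶠ j in atTop, (1 + δ) * ρ j ≤ ρ (j + 1) := by
    have hm_inf : Tendsto m atTop atTop := tendsto_atTop_mono hmj tendsto_id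
    have hb2 := hm_inf.eventually hbl
    have hbig : ∀ᶠ j : ℕ in atTop, (1 + δ) * (μ * N + K + 1) ≤ (lam - (1 + δ) * μ) * (j : ℝ) :=
      (tendsto_natCast_atTop_atTop.const_mul_atTop (by linarith)).eventually_ge_atTop _
    filter_upwards [hb2, hbig] with j h1 h2
    have h3 : (b (m j) : ℝ) * qn b (m j) ≤ qn b (m (j + 1)) := by
      have e1 : (b (m j) : ℝ) * qn b (m j) ≤ qn b (m j + 1) := by exact_mod_cast qn_lower b hb (m j)
      have e2 : (qn b (m j + 1) : ℝ) ≤ qn b (m (j + 1)) := by exact_mod_cast qn_mono b hb (hstep j)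
      linarith
    have h4 : (qn a (N + j + 1) : ℝ) ≤ (μ * (N + j) + K + 1) * qn a (N + j) := by
      have e1 := hqup (N + j)
      have e2 := hau (N + j)
      push_cast at e2
      nlinarith [hqpos (N + j)]
    have h5 : (1 + δ) * (μ * (N + j) + K + 1) ≤ b (m j) := by
      have e1 : (j : ℝ) ≤ m j := by exact_mod_cast hmj j
      have e2 : lam * j ≤ lam * m j := mul_le_mul_of_nonneg_left e1 (by linarith)
      nlinarith
    have h12 : N + (j + 1) = N + j + 1 := by ring
    simp only [ρ, h12]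
    rw [mul_div_assoc', div_le_div_iff₀ (hqpos _) (hqpos _)]
    have e3 := hqbpos (m j)
    have e4 := hqpos (N + j)
    calc (1 + δ) * qn b (m j) * qn a (N + j + 1)
        ≤ (1 + δ) * qn b (m j) * ((μ * (N + j) + K + 1) * qn a (N + j)) := by
          refine mul_le_mul_of_nonneg_left h4 (by positivity)
      _ = ((1 + δ) * (μ * (N + j) + K + 1)) * (qn b (m j) * qn a (N + j)) := by ring
      _ ≤ b (m j) * (qn b (m j) * qn a (N + j)) := mul_le_mul_of_nonneg_right h5 (by positivity)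
      _ = (b (m j) * qn b (m j)) * qn a (N + j) := by ring
      _ ≤ qn b (m (j + 1)) * qn a (N + j) := mul_le_mul_of_nonneg_right h3 e4.le
  obtain ⟨J, hJ⟩ := hratio.exists_forall_of_atTop
  have hgrow : ∀ k, (1 + δ) ^ k * ρ J ≤ ρ (J + k) := by
    intro k
    induction k with
    | zero => simp
    | succ k ih =>
      have := hJ (J + k) (Nat.le_add_right _ _)
      calc (1 + δ) ^ (k + 1) * ρ J = (1 + δ) * ((1 + δ) ^ k * ρ J) := by ring
        _ ≤ (1 + δ) * ρ (J + k) := mul_le_mul_of_nonneg_left ih (by linarith)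
        _ ≤ ρ (J + (k + 1)) := this
  obtain ⟨k, hk⟩ := pow_unbounded_of_one_lt (2 * κ / ρ J) (by linarith : 1 < 1 + δ)
  have h1 := hgrow k
  have h2 := hρle (J + k)
  rw [div_lt_iff₀ (hρpos J)] at hk
  linarith

/-- the linear form version -/
theorem indep {a b : ℕ → ℕ} {t s : ℕ → ℝ} (ha : ∀ i, 1 ≤ a i) (hb : ∀ i, 1 ≤ b i)
    (ht : Tl a t) (hs : Tl b s) {μ K lam : ℝ} (hμ : 0 < μ) (hml : μ < lam)
    (hau : ∀ n : ℕ, (a n : ℝ) ≤ μ * n + K) (hal : Tendsto (fun n => (a n : ℝ)) atTop atTop)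
    (hbl : ∀ᶠ n : ℕ in atTop, lam * n ≤ b n)
    {A B C D : ℤ} (h : (A : ℝ) + B * t 0 + C * s 0 + D * (t 0 * s 0) = 0) :
    A = 0 ∧ B = 0 ∧ C = 0 ∧ D = 0 := by
  have hdet : A * D - B * C = 0 := by
    by_contra hc
    exact no_relation ha hb ht hs hμ hml hau hal hbl h hc
  have hdr : (A : ℝ) * D - B * C = 0 := by exact_mod_cast hdet
  by_cases hD : D = 0
  · have hBC : B * C = 0 := by rw [hD, mul_zero, zero_sub, neg_eq_zero] at hdet; exact hdet
    rcases mul_eq_zero.1 hBC with h0 | h0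
    · have h1 : (A : ℝ) + C * s 0 = 0 := by rw [hD, h0] at h; push_cast at h; linarith
      obtain ⟨h2, h3⟩ := irr hb hs h1
      exact ⟨h2, h0, h3, hD⟩
    · have h1 : (A : ℝ) + B * t 0 = 0 := by rw [hD, h0] at h; push_cast at h; linarith
      obtain ⟨h2, h3⟩ := irr ha ht h1
      exact ⟨h2, h3, h0, hD⟩
  · exfalso
    have h1 : ((C : ℝ) + D * t 0) * (B + D * s 0) = 0 := by
      linear_combination (D : ℝ) * h - hdr
    rcases mul_eq_zero.1 h1 with h2 | h2
    · exact hD (irr ha ht h2).2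
    · exact hD (irr hb hs h2).2

end Pool.Agent.W_d96d20_h7
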